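import Mathlib

set_option autoImplicit false

/-!
The polynomial `det (X b - a)`, as a map from the ring of integers to the ideal `(a, b)`, is
primitive.
-/

namespace Pool.Agent.Q176.T6

open NumberField Polynomial Module

variable {K : Type} [Field K] [NumberField K]

abbrev idx (K : Type) [Field K] [NumberField K] := Free.ChooseBasisIndex ℤ (𝓞 K)

/-- the matrix of the multiplication by `X b - a` from the ring of integers to the ideal `I`. -/
noncomputable def mat (I : Ideal (𝓞 K)) (γ : Basis (idx K) ℤ I) (a b : 𝓞 K) (ha : a ∈ I)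
    (hb : b ∈ I) : Matrix (idx K) (idx K) ℤ[X] :=
  Matrix.of fun i j => X * C (γ.repr ⟨b * RingOfIntegers.basis K j, I.mul_mem_right _ hb⟩ i)
    - C (γ.repr ⟨a * RingOfIntegers.basis K j, I.mul_mem_right _ ha⟩ i)

theorem pow_le (a b : 𝓞 K) (k : ℕ) : (Ideal.span {a, b}) ^ (k + 1) ≤
    Ideal.span {a ^ (k + 1)} ⊔ Ideal.span {b} * (Ideal.span {a, b}) ^ k := by
  have hI : Ideal.span {a, b} = Ideal.span {a} ⊔ Ideal.span {b} := by
    rw [Ideal.span_insert]
  induction k with
  | zero => rw [hI]; simp
  | succ k ih =>
    set I := Ideal.span {a, b} with hIdef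
    calc I ^ (k + 1 + 1) = I * I ^ (k + 1) := by ring
      _ = Ideal.span {a} * I ^ (k + 1) ⊔ Ideal.span {b} * I ^ (k + 1) := by
          rw [← Ideal.sup_mul, ← hI]
      _ ≤ Ideal.span {a} * (Ideal.span {a ^ (k + 1)} ⊔ Ideal.span {b} * I ^ k) ⊔
            Ideal.span {b} * I ^ (k + 1) := sup_le_sup_right (Ideal.mul_mono_right ih) _
      _ ≤ _ := by
          rw [Ideal.mul_sup, Ideal.span_singleton_mul_span_singleton]
          refine sup_le (sup_le ?_ ?_) le_sup_right
          · rw [← pow_succ']
            exact le_sup_left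
          · refine le_trans ?_ le_sup_right
            rw [mul_left_comm]
            refine Ideal.mul_mono_right ?_
            rw [pow_succ']
            exact Ideal.mul_mono_left (Ideal.span_mono (by simp))

/-- the descent. -/
theorem descent (p : ℕ) (a b : 𝓞 K) (hab : Ideal.span {a, b} ≠ ⊥) (y : ℕ → 𝓞 K)
    (hy0 : y 0 = 0)
    (hy : ∀ k, b * y k - a * y (k + 1) ∈ Ideal.span {(p : 𝓞 K)} * Ideal.span {a, b})
    (N : ℕ) (hN : ∀ k, N ≤ k → y k = 0) (k : ℕ) : y k ∈ Ideal.span {(p : 𝓞 K)} := by
  set I := Ideal.span {a, b} with hI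
  set P := Ideal.span {(p : 𝓞 K)} with hP
  have haI : a ∈ I := Ideal.subset_span (by simp)
  have hbI : b ∈ I := Ideal.subset_span (by simp)
  by_cases hkN : N ≤ k
  · rw [hN k hkN]; exact zero_mem _
  have hd : ∀ d : ℕ, ∀ k, N ≤ k + d → y k ∈ P := by
    intro d
    induction d with
    | zero =>
      intro k hk
      rw [hN k (by omega)]; exact zero_mem _
    | succ d ih =>
      intro n hn
      have h1 : y (n + 1) ∈ P := ih (n + 1) (by omega)
      -- b y_n in P I
      have h2 : b * y n ∈ P * I := by
        have := add_mem (hy n) (Ideal.mul_mem_mul h1 haI)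
        have e : b * y n - a * y (n + 1) + y (n + 1) * a = b * y n := by ring
        rwa [e] at this
      have h3 : ∀ k, k ≤ n → a ^ k * y n - b ^ k * y (n - k) ∈ P * I ^ k := by
        intro k
        induction k with
        | zero => intro _; simp
        | succ k ihk =>
          intro hk
          have e1 := ihk (by omega)
          have e2 : a * (a ^ k * y n - b ^ k * y (n - k)) ∈ P * I ^ (k + 1) := by
            have := Ideal.mul_mem_mul haI e1
            rwa [show I * (P * I ^ k) = P * I ^ (k + 1) by ring] at this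
          have e3 : b ^ k * (b * y (n - (k + 1)) - a * y (n - (k + 1) + 1)) ∈
              P * I ^ (k + 1) := by
            have := Ideal.mul_mem_mul (Ideal.pow_mem_pow hbI k) (hy (n - (k + 1)))
            rwa [show I ^ k * (P * I) = P * I ^ (k + 1) by ring] at this
          have e4 := sub_mem e2 e3
          have e5 : n - (k + 1) + 1 = n - k := by omega
          rw [e5] at e4
          convert e4 using 1
          ring
      have h4 : a ^ n * y n ∈ P * I ^ n := by
        have := h3 n le_rfl
        rwa [Nat.sub_self, hy0, mul_zero, sub_zero] at this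
      rcases Nat.eq_zero_or_pos n with hn0 | hn0
      · subst hn0; rw [hy0]; exact zero_mem _
      obtain ⟨m, rfl⟩ : ∃ m, n = m + 1 := ⟨n - 1, by omega⟩
      have h5 : Ideal.span {y (m + 1)} * I ^ (m + 1) ≤ P * I ^ (m + 1) := by
        refine (Ideal.mul_mono_right (pow_le a b m)).trans ?_
        rw [Ideal.mul_sup]
        refine sup_le ?_ ?_
        · rw [Ideal.span_singleton_mul_span_singleton, Ideal.span_singleton_le_iff_mem,
            mul_comm (y (m + 1))]
          exact h4
        · rw [← mul_assoc, Ideal.span_singleton_mul_span_singleton]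
          have : Ideal.span {y (m + 1) * b} ≤ P * I := by
            rw [Ideal.span_singleton_le_iff_mem, mul_comm (y (m + 1))]
            exact h2
          refine (Ideal.mul_mono_left this).trans (le_of_eq ?_)
          rw [← hI]
          ring
      have h6 : P ∣ Ideal.span {y (m + 1)} := by
        rw [← Ideal.dvd_iff_le] at h5
        exact (mul_dvd_mul_iff_right (pow_ne_zero _ hab)).1 h5
      rw [Ideal.dvd_iff_le, Ideal.span_singleton_le_iff_mem] at h6
      exact h6
  exact hd N k (by omega)

end Pool.Agent.Q176.T6
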