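import Mathlib
import Pool.Agent.Q176.T6.Prim

set_option autoImplicit false

namespace Pool.Agent.Q176.T6

open NumberField Polynomial Module

variable {K : Type} [Field K] [NumberField K]

/-- the determinant of `mat` is not divisible by a prime. -/
theorem det_ne (a b : 𝓞 K) (hab : Ideal.span {a, b} ≠ ⊥)
    (γ : Basis (idx K) ℤ (Ideal.span {a, b} : Ideal (𝓞 K)))
    (ha : a ∈ Ideal.span {a, b}) (hb : b ∈ Ideal.span {a, b}) (p : ℕ) [Fact p.Prime] :
    ((mat _ γ a b ha hb).det).map (Int.castRingHom (ZMod p)) ≠ 0 := by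
  classical
  intro h0
  set β := RingOfIntegers.basis K with hβ
  have h1 : ((Polynomial.mapRingHom (Int.castRingHom (ZMod p))).mapMatrix
      (mat _ γ a b ha hb)).det = 0 := by
    rw [← RingHom.map_det]; exact h0
  obtain ⟨v, hv0, hv⟩ := Matrix.exists_mulVec_eq_zero_iff.2 h1
  -- integer lifts of the coefficients
  let w : ℕ → idx K → ℤ := fun k i => ((v i).coeff k).cast
  have hw : ∀ k i, ((w k i : ℤ) : ZMod p) = (v i).coeff k := fun k i => ZMod.intCast_zmod_cast _
  let y : ℕ → 𝓞 K := fun k => Nat.casesOn k 0 (fun m => ∑ i, w m i • β i)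
  have hy0 : y 0 = 0 := rfl
  have hys : ∀ m, y (m + 1) = ∑ i, w m i • β i := fun m => rfl
  let N : ℕ := (Finset.univ.sup fun i => (v i).natDegree) + 2
  have hN : ∀ k, N ≤ k → y k = 0 := by
    intro k hk
    obtain ⟨m, rfl⟩ : ∃ m, k = m + 1 := ⟨k - 1, by omega⟩
    rw [hys]
    refine Finset.sum_eq_zero fun i _ => ?_
    have : (v i).coeff m = 0 := by
      apply Polynomial.coeff_eq_zero_of_natDegree_lt
      have h2 : (v i).natDegree ≤ Finset.univ.sup fun i => (v i).natDegree :=
        Finset.le_sup (f := fun i => (v i).natDegree) (Finset.mem_univ i)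
      have h3 : (Finset.univ.sup fun i => (v i).natDegree) + 2 ≤ m + 1 := hk
      omega
    have : w m i = 0 := by
      change (((v i).coeff m).cast : ℤ) = 0
      rw [this]; simp
    rw [this, zero_smul]
  -- membership in p I by coordinates
  have hmem : ∀ u : (Ideal.span {a, b} : Ideal (𝓞 K)),
      (∀ i, ((γ.repr u i : ℤ) : ZMod p) = 0) →
      (u : 𝓞 K) ∈ Ideal.span {(p : 𝓞 K)} * Ideal.span {a, b} := by
    intro u hu
    have e := γ.sum_repr u
    have e2 : (u : 𝓞 K) = ∑ i, (γ.repr u i) • (γ i : 𝓞 K) := by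
      have e3 := congrArg (Submodule.subtype (Ideal.span {a, b})) e
      rw [map_sum] at e3
      exact e3.symm
    rw [e2]
    refine sum_mem fun i _ => ?_
    obtain ⟨c, hc⟩ := (ZMod.intCast_zmod_eq_zero_iff_dvd _ _).1 (hu i)
    rw [hc, mul_smul, zsmul_eq_mul, Int.cast_natCast]
    refine Ideal.mul_mem_mul (Ideal.mem_span_singleton_self _) ?_
    exact (Ideal.span {a, b}).smul_of_tower_mem c (γ i).2
  have hmulb : ∀ (t : 𝓞 K) (z : idx K → ℤ) (ht : t ∈ Ideal.span {a, b}) (i : idx K),
      γ.repr ⟨t * ∑ j, z j • β j, Ideal.mul_mem_right _ _ ht⟩ i =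
        ∑ j, z j * γ.repr ⟨t * β j, Ideal.mul_mem_right _ _ ht⟩ i := by
    intro t z ht i
    have : (⟨t * ∑ j, z j • β j, Ideal.mul_mem_right _ _ ht⟩ :
        (Ideal.span {a, b} : Ideal (𝓞 K))) =
        ∑ j, z j • (⟨t * β j, Ideal.mul_mem_right _ _ ht⟩ :
          (Ideal.span {a, b} : Ideal (𝓞 K))) := by
      apply Subtype.ext
      have e3 := map_sum (Submodule.subtype (Ideal.span {a, b}))
        (fun j => z j • (⟨t * β j, Ideal.mul_mem_right _ _ ht⟩ :
          (Ideal.span {a, b} : Ideal (𝓞 K)))) Finset.univ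
      refine Eq.trans ?_ e3.symm
      change t * ∑ j, z j • β j = ∑ j, z j • (t * β j)
      simp only [Finset.mul_sum, mul_smul_comm]
    rw [this, map_sum, Finsupp.finsetSum_apply]
    refine Finset.sum_congr rfl fun j _ => ?_
    rw [map_smul, Finsupp.smul_apply, smul_eq_mul]
  have hcoef : ∀ (k : ℕ) (i : idx K), ∑ j, (((if k = 0 then 0 else
      γ.repr ⟨b * β j, Ideal.mul_mem_right _ _ hb⟩ i : ℤ) : ZMod p) * (v j).coeff (k - 1) -
      ((γ.repr ⟨a * β j, Ideal.mul_mem_right _ _ ha⟩ i : ℤ) : ZMod p) * (v j).coeff k) = 0 := by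
    intro k i
    have e := congrFun hv i
    have e2 := congrArg (fun q => Polynomial.coeff q k) e
    simp only [Matrix.mulVec, dotProduct, Polynomial.finsetSum_coeff, Pi.zero_apply,
      Polynomial.coeff_zero] at e2
    rw [← e2]
    refine Finset.sum_congr rfl fun j _ => ?_
    simp only [RingHom.mapMatrix_apply, Matrix.map_apply, mat, Matrix.of_apply, map_sub, map_mul,
      Polynomial.coe_mapRingHom, Polynomial.map_X, Polynomial.map_C, eq_intCast]
    rcases k with _ | k
    · simp [sub_mul, mul_assoc, hβ]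
    · simp [sub_mul, mul_assoc, hβ]
  have hy : ∀ k, b * y k - a * y (k + 1) ∈ Ideal.span {(p : 𝓞 K)} * Ideal.span {a, b} := by
    intro k
    let z : idx K → ℤ := fun j => if k = 0 then 0 else w (k - 1) j
    have hz : y k = ∑ j, z j • β j := by
      rcases k with _ | k
      · simp [z, hy0]
      · simp [z, hys]
    have e := hmem (⟨b * ∑ j, z j • β j, Ideal.mul_mem_right _ _ hb⟩ -
      ⟨a * ∑ j, w k j • β j, Ideal.mul_mem_right _ _ ha⟩) ?_
    · rw [hz, hys]
      simpa using e
    · intro i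
      rw [map_sub, Finsupp.sub_apply, hmulb b _ hb, hmulb a _ ha, Int.cast_sub, Int.cast_sum, Int.cast_sum,
        ← Finset.sum_sub_distrib, ← hcoef k i]
      refine Finset.sum_congr rfl fun j _ => ?_
      rw [Int.cast_mul, Int.cast_mul, hw]
      rcases k with _ | k
      · simp [z]; ring
      · simp only [z, Nat.add_sub_cancel, Nat.add_eq_zero_iff, one_ne_zero, and_false, if_false, hw]
        ring
  have hall := descent p a b hab y hy0 hy N hN
  apply hv0
  funext i
  apply Polynomial.ext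
  intro m
  simp only [Pi.zero_apply, Polynomial.coeff_zero]
  have e := hall (m + 1)
  rw [hys, Ideal.mem_span_singleton] at e
  obtain ⟨u, hu⟩ := e
  have e2 := congrArg (fun t => β.repr t i) hu
  simp only [map_sum, map_smul, Basis.repr_self, Finsupp.smul_single, smul_eq_mul, mul_one,
    Finsupp.finsetSum_apply] at e2
  have e3 : β.repr ((p : 𝓞 K) * u) i = p * β.repr u i := by
    rw [← nsmul_eq_mul, map_nsmul]
    simp
  rw [e3] at e2
  have e4 : w m i = p * β.repr u i := by
    rw [← e2]
    simp [Finsupp.single_apply]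
  rw [← hw, e4]
  simp

end Pool.Agent.Q176.T6
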