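import Mathlib
import Pool.Agent.Q176.T6.Det
import Pool.Agent.Q256.T6.Def

set_option autoImplicit false

namespace Pool.Agent.Q176.T6

open NumberField Polynomial Module

variable {K : Type} [Field K] [NumberField K]

/-- the matrix `X b - a` on the ring of integers. -/
noncomputable def pen (a b : 𝓞 K) : Matrix (idx K) (idx K) ℤ[X] :=
  (X : ℤ[X]) • (Algebra.leftMulMatrix (RingOfIntegers.basis K) b).map (C : ℤ →+* ℤ[X]) -
    (Algebra.leftMulMatrix (RingOfIntegers.basis K) a).map (C : ℤ →+* ℤ[X])

theorem pen_eq (a b : 𝓞 K) (I : Ideal (𝓞 K)) (γ : Basis (idx K) ℤ I) (ha : a ∈ I) (hb : b ∈ I) :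
    pen a b = ((RingOfIntegers.basis K).toMatrix ((↑) ∘ γ)).map (C : ℤ →+* ℤ[X]) *
      mat I γ a b ha hb := by
  classical
  set β := RingOfIntegers.basis K with hβ
  have key : ∀ (u : I) (i : idx K), β.repr (u : 𝓞 K) i =
      ∑ k, β.repr (γ k : 𝓞 K) i * γ.repr u k := by
    intro u i
    have e := γ.sum_repr u
    have e3 := congrArg (Submodule.subtype I) e
    rw [map_sum] at e3
    have e4 : (u : 𝓞 K) = ∑ k, (γ.repr u k) • (γ k : 𝓞 K) := e3.symm
    rw [e4, map_sum, Finsupp.finsetSum_apply]
    refine Finset.sum_congr rfl fun k _ => ?_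
    rw [map_smul, Finsupp.smul_apply, smul_eq_mul, mul_comm]
  ext1 i j
  rw [Matrix.mul_apply]
  simp only [pen, Matrix.sub_apply, Matrix.smul_apply, Matrix.map_apply,
    Algebra.leftMulMatrix_eq_repr_mul, mat, Matrix.of_apply, Basis.toMatrix_apply,
    Function.comp_apply, smul_eq_mul]
  have e1 := key ⟨b * β j, I.mul_mem_right _ hb⟩ i
  have e2 := key ⟨a * β j, I.mul_mem_right _ ha⟩ i
  change X * C (β.repr (b * β j) i) - C (β.repr (a * β j) i) = _
  rw [e1, e2, map_sum, map_sum, Finset.mul_sum, ← Finset.sum_sub_distrib]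
  refine Finset.sum_congr rfl fun k _ => ?_
  rw [map_mul, map_mul]
  ring

theorem charpoly_eq (x : K) (hx : IntermediateField.adjoin ℚ {x} = ⊤) :
    (Algebra.leftMulMatrix (integralBasis K) x).charpoly = minpoly ℚ x := by
  classical
  set M := Algebra.leftMulMatrix (integralBasis K) x with hM
  have h1 : aeval x M.charpoly = 0 := by
    apply Algebra.leftMulMatrix_injective (integralBasis K)
    rw [map_zero, ← Polynomial.aeval_algHom_apply, ← hM]
    exact Matrix.aeval_self_charpoly M
  have h2 : minpoly ℚ x ∣ M.charpoly := minpoly.dvd ℚ x h1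
  have hint : IsIntegral ℚ x := Algebra.IsIntegral.isIntegral x
  have h3 : (minpoly ℚ x).natDegree = M.charpoly.natDegree := by
    rw [Matrix.charpoly_natDegree_eq_dim, ← Module.finrank_eq_card_basis (integralBasis K),
      ← IntermediateField.adjoin.finrank hint, hx, IntermediateField.finrank_top']
  exact Polynomial.eq_of_monic_of_dvd_of_natDegree_le (minpoly.monic hint)
    (Matrix.charpoly_monic M) h2 h3.ge

theorem pen_det (x : K) (a b : 𝓞 K) (hx : IntermediateField.adjoin ℚ {x} = ⊤)
    (hab : (a : K) = b * x) :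
    ((pen a b).det).map (Int.castRingHom ℚ) =
      C ((Algebra.norm ℤ b : ℤ) : ℚ) * minpoly ℚ x := by
  classical
  have hloc : ∀ z : 𝓞 K, (Algebra.leftMulMatrix (RingOfIntegers.basis K) z).map
      (Int.castRingHom ℚ) = Algebra.leftMulMatrix (integralBasis K) (z : K) := by
    intro z
    ext i j
    rw [Matrix.map_apply, Algebra.leftMulMatrix_eq_repr_mul, Algebra.leftMulMatrix_eq_repr_mul,
      integralBasis_apply, ← map_mul, integralBasis_repr_apply]
    rfl
  have h1 : ((pen a b).det).map (Int.castRingHom ℚ) =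
      ((Polynomial.mapRingHom (Int.castRingHom ℚ)).mapMatrix (pen a b)).det := by
    rw [← RingHom.map_det]; rfl
  rw [h1]
  have h2 : (Polynomial.mapRingHom (Int.castRingHom ℚ)).mapMatrix (pen a b) =
      (Algebra.leftMulMatrix (integralBasis K) (b : K)).map (C : ℚ →+* ℚ[X]) *
        (Algebra.leftMulMatrix (integralBasis K) x).charmatrix := by
    have h3 : Algebra.leftMulMatrix (integralBasis K) (a : K) =
        Algebra.leftMulMatrix (integralBasis K) (b : K) *
          Algebra.leftMulMatrix (integralBasis K) x := by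
      rw [hab, map_mul]
    have h4 : (Polynomial.mapRingHom (Int.castRingHom ℚ)).mapMatrix (pen a b) =
        (X : ℚ[X]) • (Algebra.leftMulMatrix (integralBasis K) (b : K)).map (C : ℚ →+* ℚ[X]) -
          (Algebra.leftMulMatrix (integralBasis K) (a : K)).map (C : ℚ →+* ℚ[X]) := by
      rw [← hloc a, ← hloc b]
      ext1 i j
      simp [pen]
    rw [h4, h3, Matrix.charmatrix, mul_sub, Matrix.map_mul]
    congr 1
    rw [Matrix.scalar_apply, ← Matrix.smul_one_eq_diagonal, Matrix.mul_smul, Matrix.mul_one]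
  rw [h2, Matrix.det_mul, ← charpoly_eq x hx, Matrix.charpoly]
  congr 1
  have h5 : ((Algebra.leftMulMatrix (integralBasis K) (b : K)).map (C : ℚ →+* ℚ[X])).det =
      C ((Algebra.leftMulMatrix (integralBasis K) (b : K)).det) := by
    rw [RingHom.map_det]; rfl
  rw [h5, ← hloc b]
  congr 1
  rw [Algebra.norm_eq_matrix_det (RingOfIntegers.basis K)]
  have := (RingHom.map_det (Int.castRingHom ℚ)
    (Algebra.leftMulMatrix (RingOfIntegers.basis K) b)).symm
  exact this

theorem gauss : Pool.Agent.Q256.T6.S_Gauss := by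
  classical
  intro K _ _ x g a b hx hg hgx hb hab
  have hspan : (Ideal.span {a, b} : Ideal (𝓞 K)) ≠ ⊥ := by
    intro h
    have : b ∈ (Ideal.span {a, b} : Ideal (𝓞 K)) := Ideal.subset_span (by simp)
    rw [h] at this
    exact hb this
  set I : Ideal (𝓞 K) := Ideal.span {a, b} with hI
  have ha' : a ∈ I := Ideal.subset_span (by simp)
  have hb' : b ∈ I := Ideal.subset_span (by simp)
  let γ : Basis (idx K) ℤ I := I.selfBasis (RingOfIntegers.basis K) hspan
  set D := (mat I γ a b ha' hb').det with hD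
  set c := ((RingOfIntegers.basis K).toMatrix ((↑) ∘ γ)).det with hc
  have hcn : c.natAbs = Ideal.absNorm I :=
    Ideal.natAbs_det_basis_change (RingOfIntegers.basis K) I γ
  have h1 : (pen a b).det = C c * D := by
    rw [pen_eq a b I γ ha' hb', Matrix.det_mul]
    congr 1
    rw [hc, RingHom.map_det]; rfl
  -- D is primitive
  have hDc : D.content = 1 := by
    rw [← Polynomial.isPrimitive_iff_content_eq_one]
    intro r hr
    rw [Int.isUnit_iff_natAbs_eq]
    by_contra hne
    obtain ⟨p, hp, hpr⟩ := Nat.exists_prime_and_dvd hne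
    haveI : Fact p.Prime := ⟨hp⟩
    apply det_ne a b hspan γ ha' hb' p
    obtain ⟨q, hq⟩ := hr
    obtain ⟨t, ht⟩ := Int.natCast_dvd.2 hpr
    change D.map _ = 0
    rw [hq, ht, Polynomial.map_mul, Polynomial.map_C]
    simp
  -- g
  have hg0 : g.natDegree ≠ 0 := by
    intro h
    rw [Polynomial.eq_C_of_natDegree_eq_zero h] at hgx hg
    simp only [aeval_C] at hgx
    rw [algebraMap_int_eq, eq_intCast, Int.cast_eq_zero] at hgx
    rw [hgx, C_0] at hg
    exact hg.ne_zero rfl
  have hgp : g.IsPrimitive := hg.isPrimitive hg0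
  have hgQ : Irreducible (g.map (Int.castRingHom ℚ)) :=
    (Polynomial.IsPrimitive.Int.irreducible_iff_irreducible_map_cast hgp).1 hg
  have hmin : (C (g.leadingCoeff : ℚ)) * minpoly ℚ x = g.map (Int.castRingHom ℚ) := by
    have h3 : aeval x (g.map (Int.castRingHom ℚ)) = 0 := by
      rw [← algebraMap_int_eq, Polynomial.aeval_map_algebraMap]; exact hgx
    have h4 := minpoly.eq_of_irreducible hgQ h3
    have h5 : (g.map (Int.castRingHom ℚ)).leadingCoeff = (g.leadingCoeff : ℚ) := by
      rw [Polynomial.leadingCoeff_map_of_injective (RingHom.injective_int _)]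
      rfl
    have h6 : (g.leadingCoeff : ℚ) ≠ 0 := by
      simpa using hg.ne_zero
    rw [← h4, h5, mul_comm, mul_assoc, ← C_mul, inv_mul_cancel₀ h6, C_1, mul_one]
  have h2 : C g.leadingCoeff * (C c * D) = C (Algebra.norm ℤ b) * g := by
    apply Polynomial.map_injective (Int.castRingHom ℚ) (RingHom.injective_int _)
    rw [← h1, Polynomial.map_mul, Polynomial.map_mul, pen_det x a b hx hab, ← hmin,
      Polynomial.map_C, Polynomial.map_C]
    simp only [eq_intCast]
    ring
  have h3 := congrArg Polynomial.content h2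
  rw [Polynomial.content_C_mul, Polynomial.content_C_mul, Polynomial.content_C_mul, hDc,
    hgp.content_eq_one] at h3
  have h4 := congrArg Int.natAbs h3
  simp only [mul_one, Int.natAbs_mul, ← Int.abs_eq_normalize, Int.natAbs_abs] at h4
  rw [← hcn, ← h4]
  ring

end Pool.Agent.Q176.T6
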